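import Mathlib
import Pool.Agent.Q64.N.Main
import Pool.Agent.Q64.L.Thms

/-!
# The Tate conjecture for higher Chow groups of the products of open varieties with abelian
varieties: Newton strata

Fix a prime number `p` and a nonempty finite set `κ`. For `i` in `κ` let `g i` be a dimension and
let `sl i j`, `j < g i`, be rational numbers between `0` and `1 / 2` such that the `sl i j` and
`1 - sl i j` are the slopes of a symmetric Newton polygon with integral break points (`IsNewton`)
which is not the supersingular one, that is `sl i j < 1 / 2` for some `j`. Let `r` be an integer
smaller than all the `g i`, and let `E` be a number field. By the theorem of Honda and Tate,
`Stratum g sl p a` is the set of the families of isogeny classes of abelian varieties of dimensions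
`g i` over the field with `q = p ^ a` elements with these Newton polygons; it consists of the
families `f i` of the characteristic polynomials of Frobenius.

As `a → ∞`, the number of the families in `Stratum g sl p a` tends to infinity, and **the
proportion of those families for which the following is true tends to one**: for all `N` and
`ε > 0` there is an `a₀` such that for `a ≥ a₀` there are at least `N` families, and at most `ε`
times their number are exceptions.

Let `A` be an abelian variety over the field with `Q = q ^ s` elements, `s > 0`, which is isogenous
to a product of powers of abelian varieties coming from the field with `q` elements, with
characteristic polynomials `f i`, and let `X` be **any** smooth variety, proper or not, over the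
field with `Q` elements such that

* the eigenvalues `ρ` of Frobenius on the `ℓ`-adic cohomology of `X` and their conjugates are in a
  group of rank at most `r` over `E` (`RootsRank`): there are nonzero numbers `u 1, ..., u r` such
  that each `ρ` has a power which is the product of a nonzero element of `E` and of integral powers
  of `u 1, ..., u r`.

**For all `i`, `j` the map `c^(i, j)` of `A × X` is onto the Galois invariants if and only if the
maps `c^(i - 2 k, j - k)` of `X`, `0 ≤ k ≤ dim A`, are so.** The Galois invariants satisfy a
Kunneth formula, with finitely many products of divisor classes on `A`. No case of the conjectures
is assumed, and nothing is assumed on the higher Chow groups of `X`.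

The file `AlmostAllAbelianFactors` in this folder is about almost all abelian varieties of a fixed
dimension over large finite fields; here the abelian varieties are almost all those with given
Newton polygons.

What is used of `A` are known theorems (`IsAbelian`): `H(A)` is generated by `H^1`, Frobenius is
diagonalizable on `H^1` (Weil), the theorem of Tate on divisors, and the nilpotence of
homologically trivial correspondences (Kimura). The theories relative to `X` are modelled by
`RelData`, with the formal properties in `IsTheory`: degrees, products with classes on `A`,
push-forward to `X`, the projection formula, the operation of the correspondences of `A` and of the
Frobenius endomorphism of `X`. The group of bidegree `(i, j)` is `H^i(X, j)`, resp.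
`H^i(A × X, j)`; the Frobenius endomorphism of `A × X` is the multiplication by `Q ^ j` on motivic
cohomology (`IsPure`) and on the Galois invariants of the `ℓ`-adic cohomology groups (`InvN`,
`InvM`); the generalized eigenvectors are in `GenN`, `GenM`.

For `r = 0` the assumption on the eigenvalues says that they and their conjugates have powers in
`E`. If for instance a factor of this kind over the field with `q' = p ^ b` elements is given, one
can take for `E` the field generated by the Frobenius eigenvalues and their conjugates, and apply
the theorem to the fields with `q = p ^ a` elements, `b | a`. A supersingular abelian variety may
always be added to the other factor.

Relation to other results. `AlmostAllAbelianFactors` (this folder) is about almost all abelian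
varieties of given dimensions. Almost all of these are ordinary, and each other Newton polygon
belongs to a proportion of the isogeny classes which tends to zero; so that theorem says nothing
about any Newton polygon which is not ordinary. Here the characteristic and the Newton polygons are
given: for instance one obtains almost all those abelian varieties of a given dimension at least
three, over the fields of characteristic `p`, which have `p`-rank zero and are not supersingular.
`AllCMTypesTimesOpen` and `SmallSlopeDeviation` (this folder) are about abelian varieties with
given fields. The count of the families in a stratum is that of helper518 (`NewtonStrata`,
MP_ee618e_ag, where it is applied to the Tate conjecture for the products of the abelian varieties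
in the stratum and supersingular ones).

The proof. The elements of the stratum correspond to integral points in a box whose sides tend to
infinity: the coefficients of the trace polynomials, divided by the powers of `p` prescribed by the
Newton polygons (helper518). We apply the sieve only with primes which split completely in the
Galois closure of `E`; there are infinitely many (Chebotarev, formalized by helper401). So for
almost all families the trace polynomials are irreducible, and each pair `α`, `q / α` of roots can
be exchanged by a Galois automorphism which fixes all the other roots of all the `f i` and all
elements of `E`. No root is supersingular, as some slope is smaller than `1 / 2`. A multiplicative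
relation between `ρ`, a power of `q` and roots of the `f i`, other than those which follow from
`α (q / α) = q`, expresses some power of `α ^ 2 / q`, for all roots `α` of one `f i`, by conjugates
of `ρ`; by the automorphisms above these `g i > r` numbers are multiplicatively independent, also
modulo `E`, which is a contradiction. It follows that the correspondence on `A` given by the sum of
the products of dual classes of divisor products acts as the identity on the part of the theory of
`A × X` in question: on the generalized eigenspace of the Frobenius endomorphism of `A × X` for
`Q ^ j`, the Frobenius endomorphism of `A` satisfies a power of the polynomial reciprocal to that
of the Frobenius endomorphism of `X`; this polynomial is prime to the one whose value on `H(A)`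
lies in the part generated by divisors, and the difference of the two correspondences is nilpotent.
So the theory of `A × X` is, on this part, the direct sum of copies of the one of `X` (Kunneth
formula), compatibly with the regulators.
-/

set_option autoImplicit false

namespace Pool.Agent.Results.MP_81b968_ag.NewtonStrata

open Polynomial Pool.Agent.Q64.P Pool.Agent.Q64.N Pool.Agent.Q64.L
open Pool.Agent.Q64.L (RootsRank)

/-- **The Tate conjecture for higher Chow groups holds for `A × X` in bidegree `(i, j)` if and only
if it holds for `X` in the bidegrees `(i - 2 k, j - k)`, `0 ≤ k ≤ dim A`, for all smooth varieties
`X`, proper or not, whose Frobenius eigenvalues and their conjugates are of rank at most `r` over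
`E`, for almost all families of abelian varieties in each Newton stratum over the fields of
characteristic `p`.** -/
theorem result {κ : Type} [Fintype κ] [Nonempty κ] (p : ℕ) [Fact p.Prime]
    -- dimensions and Newton polygons
    (g : κ → ℕ) (sl : ∀ i, Fin (g i) → ℚ) (hsl : ∀ i, IsNewton (sl i))
    (hss : ∀ i, ∃ j, sl i j < 1 / 2)
    -- the rank and the number field
    (r : ℕ) (hr : ∀ i, r < g i) (E : IntermediateField ℚ ℂ) [FiniteDimensional ℚ E]
    -- a number of families, a proportion of exceptions
    (N : ℕ) (ε : ℝ) (hε : 0 < ε) :
    ∃ a₀ : ℕ, ∀ a, a₀ ≤ a →
      (Stratum g sl p a).Finite ∧ N ≤ (Stratum g sl p a).ncard ∧
      ({f ∈ Stratum g sl p a | ¬ TateHigherReduces (RootsRank E r) (p ^ a) f}.ncard : ℝ) ≤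
        ε * ((Stratum g sl p a).ncard : ℝ) :=
  strata p g sl hsl hss r hr E (fun a f => TateHigherReduces (RootsRank E r) (p ^ a) f)
    (fun _ _ _ hq hG => tateHigherReduces hq hG) N ε hε

end Pool.Agent.Results.MP_81b968_ag.NewtonStrata
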