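import Mathlib
import Pool.Agent.Q70.MM.ProdGood
import Pool.Agent.Q64.L.Thms

/-!
# The Tate conjecture for higher Chow groups of the products of open varieties with abelian
varieties: several types for each field

Let `q = p ^ a`, let `K c` (`c` in a finite set) be CM fields and `π c l`, `l` in a finite set `J c`,
**several** Weil numbers for `q` in the **same** field `K c`; let `f i`, `i = (c, l)`, be monic
polynomials whose complex roots are conjugates of `π c l` (`IsPolyOf`), for instance the
characteristic polynomials of Frobenius of the abelian varieties in the isogeny class of `π c l`
over the field with `q` elements. We suppose that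

* the functions `n` on the complex embeddings of `K c` with `n (conj φ) = - n φ` are an absolutely
  irreducible representation of the automorphisms of `ℂ` (`OddAbsolutelyIrreducible`), and there
  are no equivariant maps between those of `K c` and `K c'` for `c ≠ c'` (`Unrelated`). This is the
  generic case; the first condition is true, for example, if the Galois group of the normal closure
  of `K c` consists of all permutations of the embeddings compatible with the complex conjugation,
  or if only some automorphism exchanges one embedding with its complex conjugate and fixes all the
  others;
* for each `c` the slopes of the `π c l`, `l` in `J c`, as functions on the embeddings of `K c` in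
  the algebraic closure of `ℚ_p`, minus `1 / 2`, are linearly independent over `ℚ`
  (`IndependentSlopes`; first part of the theorem), or (second part) all `π c l` are ordinary, no
  set `J c` has more than three elements, and for `l ≠ l'` the slopes of `π c l` and `π c l'` are
  neither equal nor opposite (`DifferentSlopes`: the abelian varieties are not isogenous over any
  extension).

Let `A` be an abelian variety over the field with `Q = q ^ s` elements which is isogenous to a
product of powers of abelian varieties coming from the field with `q` elements, with characteristic
polynomials `f i`, and let `X` be **any** smooth variety, proper or not, over the field with `Q`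
elements such that

* the eigenvalues `ρ` of Frobenius on the `ℓ`-adic cohomology of `X` and their conjugates are **products of
  algebraic numbers, any number of them**, each of which is, for each `c`, unrelated to `K c`
  (`UnrelatedTo`: a function `n` on the embeddings of `K c` with `n (conj φ) = - n φ` which is
  invariant under all automorphisms of `ℂ` that fix a power of the number is zero) **or** of
  smaller degree than `K c` (`HarmlessProducts`).
**For all `i`, `j` the map `c^(i, j)` of `A × X` is onto the Galois invariants if and only if the
maps `c^(i - 2 k, j - k)` of `X`, `0 ≤ k ≤ dim A`, are so.** The Galois invariants satisfy a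
Kunneth formula, with finitely many products of divisor classes on `A`. No case of the conjectures
is assumed, and nothing is assumed on the higher Chow groups of `X`.

The starting file `AlmostAllAbelianFactors` in this folder is about almost all abelian varieties of
a fixed dimension over large finite fields; here the abelian varieties are those with absolutely
irreducible fields.

What is used of `A` are known theorems (`IsAbelian`): `H(A)` is generated by `H^1`, Frobenius is
diagonalizable on `H^1` (Weil), the theorem of Tate on divisors, and the nilpotence of
homologically trivial correspondences (Kimura). The theories relative to `X` are modelled by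
`RelData`, with the formal properties in `IsTheory`: degrees, products with classes on `A`,
push-forward to `X`, the projection formula, the operation of the correspondences of `A` and of the
Frobenius endomorphism of `X`. The group of bidegree `(i, j)` is `H^i(X, j)`, resp.
`H^i(A × X, j)`; the Frobenius endomorphism of `A × X` is the multiplication by `Q ^ j` on motivic
cohomology (`IsPure`) and on the Galois invariants of the `ℓ`-adic cohomology groups (`InvN`,
`InvM`); the generalized eigenvectors are in `GenN`, `GenM`.

Examples. Let `K` be a CM field of degree `2 g` whose normal closure has `2 ^ g g!` automorphisms. The
theorem applies to all products `A` of powers of three ordinary abelian varieties of dimension `g`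
with complex multiplication by `K` which are not isogenous over extensions; on the other side all
products `X_1 × ... × X_n`, for **all** `n`, of varieties `X_l` with Betti numbers smaller than
`2 g` are admitted, for example all products of curves of genus less than `g`, of K3 surfaces (if
`g > 11`) and of abelian surfaces (if `g > 3`). The number three is optimal for `g = 3`: if `p`
splits completely in `K` there are four pairs of conjugate ordinary types, with a linear relation
between the slopes.

Relation to other results. The theorems of this folder on `A × X` suppose that there is **one** Weil
number for each field `K c`, and that each eigenvalue `ρ` itself is unrelated to the fields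
(`AllCMTypesTimesOpen`) or has small slope deviation (`SmallSlopeDeviation`, helper64); the degree of a
product of `n` numbers of degree `d` can be `d ^ n`. New here are several non-isogenous factors
with the same field, and products of numbers on the other side. The relation theorem for several
Weil numbers in the same field is the one of `ThreeTypesPerField` (MP_950c68_ag, helper70), where
it is applied to the Tate conjecture and numbers `ρ` which are themselves unrelated or of small
degree; that products are admitted is shown by an averaging argument of helper306
(`SmallRankTensorMotives`, MP_3703a7_ag).

The proof. A relation between the conjugates of the `π c l` gives rational odd functions `n c l` on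
the embeddings of `K c` such that `∑ c, ∑ l, ∑ x, n c l x * u c l (σ x) = 0` for all `σ` in the
Galois group, where `u c l` is the slope function minus `1 / 2`. Summing the square over `σ`, by
Schur's lemma for the invariant form `∑ σ, u c l (σ x) * u c' l' (σ y)`, which is zero for
`c ≠ c'` or `y ≠ x, conj x`, one obtains `∑ l, n c l x * u c l (σ x) = 0` for each single `x`, `c`
and `σ`; this is a linear relation between the slope functions, so that `n c l x = 0`
(`angle_same`). A relation with a product `ρ` of unrelated numbers gives one without `ρ`, by
applying suitable elements of the group ring (`noRel_products`, with `coreC` of helper306). It follows that the correspondence on `A` given by the sum of the products of dual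
classes of divisor products acts as the identity on the part of the theory of `A × X` in question:
on the generalized eigenspace of the Frobenius endomorphism of `A × X` for `Q ^ j`, the Frobenius
endomorphism of `A` satisfies a power of the polynomial reciprocal to that of the Frobenius
endomorphism of `X`; this polynomial is prime to the one whose value on `H(A)` lies in the part
generated by divisors, and the difference of the two correspondences is nilpotent. So the theory of
`A × X` is, on this part, the direct sum of copies of the one of `X` (Kunneth formula), compatibly
with the regulators.
-/

set_option autoImplicit false

namespace Pool.Agent.Results.MP_81b968_ag.SeveralTypesTimesProducts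

open NumberField Module Polynomial Pool.Agent.Y137.MV Pool.Agent.Y137.SL Pool.Agent.Y1.CT
  Pool.Agent.Q70.SQ Pool.Agent.Q70.MM Pool.Agent.Q64.P Pool.Agent.Q64.L

/-- **The Tate conjecture for higher Chow groups holds for `A × X` in bidegree `(i, j)` if and only
if it holds for `X` in the bidegrees `(i - 2 k, j - k)`, `0 ≤ k ≤ dim A`, for the abelian varieties
`A` over finite fields with absolutely irreducible CM fields, pairwise equal or unrelated, those
with the same field having independent slopes, and all smooth varieties `X`, proper or not, whose
Frobenius eigenvalues are products of numbers unrelated to these fields or of smaller degree.** -/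
theorem result :
    (∀ (p : ℕ) [Fact p.Prime] (a : ℕ) (C : Type) [Fintype C] (K : C → Type)
      [∀ c, Field (K c)] [∀ c, NumberField (K c)] [∀ c, IsCMField (K c)]
      (J : C → Type) [∀ c, Fintype (J c)] (π : ∀ c, J c → K c) (f : (Σ c, J c) → ℤ[X]), 0 < a →
      (∀ c l, π c l * IsCMField.complexConj (K c) (π c l) = (p : K c) ^ a) →
      (∀ c, OddAbsolutelyIrreducible (K c)) →
      (∀ c c', c ≠ c' → Pool.Agent.Y137.MV.Unrelated (K c) (K c')) →
      IndependentSlopes p a π → (∀ i, IsPolyOf (π i.1 i.2) (f i)) →
      TateHigherReduces (HarmlessProducts K) (p ^ a) f) ∧
    (∀ (p : ℕ) [Fact p.Prime] (a : ℕ) (C : Type) [Fintype C] (K : C → Type)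
      [∀ c, Field (K c)] [∀ c, NumberField (K c)] [∀ c, IsCMField (K c)]
      (J : C → Type) [∀ c, Fintype (J c)] (π : ∀ c, J c → K c) (f : (Σ c, J c) → ℤ[X]), 0 < a →
      (∀ c l, π c l * IsCMField.complexConj (K c) (π c l) = (p : K c) ^ a) →
      (∀ c, OddAbsolutelyIrreducible (K c)) →
      (∀ c c', c ≠ c' → Pool.Agent.Y137.MV.Unrelated (K c) (K c')) →
      (∀ c, Fintype.card (J c) ≤ 3) → (∀ c l, IsOrdinary p a (π c l)) →
      (∀ c l l', l ≠ l' → DifferentSlopes p a (π c l) (π c l')) →
      (∀ i, IsPolyOf (π i.1 i.2) (f i)) →
      TateHigherReduces (HarmlessProducts K) (p ^ a) f) := by
  have hgen : ∀ (p : ℕ) [Fact p.Prime] (a : ℕ) (C : Type) [Fintype C] (K : C → Type)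
      [∀ c, Field (K c)] [∀ c, NumberField (K c)] [∀ c, IsCMField (K c)]
      (J : C → Type) [∀ c, Fintype (J c)] (π : ∀ c, J c → K c) (f : (Σ c, J c) → ℤ[X]), 0 < a →
      (∀ c l, π c l * IsCMField.complexConj (K c) (π c l) = (p : K c) ^ a) →
      (∀ c, OddAbsolutelyIrreducible (K c)) →
      (∀ c c', c ≠ c' → Pool.Agent.Y137.MV.Unrelated (K c) (K c')) →
      IndependentSlopes p a π → (∀ i, IsPolyOf (π i.1 i.2) (f i)) →
      TateHigherReduces (HarmlessProducts K) (p ^ a) f := by
    intro p _ a C _ K _ _ _ J _ π f ha hw habs hun hind hf
    exact tateHigherReduces (Nat.one_lt_pow ha.ne' (Fact.out : p.Prime).one_lt)
      (good_same ha hw habs hun hind f hf)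
  refine ⟨hgen, ?_⟩
  intro p _ a C _ K _ _ _ J _ π f ha hw habs hun hcard hord hdiff hf
  exact hgen p a C K J π f ha hw habs hun (independent_of_three π ha hcard hord hdiff) hf

end Pool.Agent.Results.MP_81b968_ag.SeveralTypesTimesProducts
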